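import Mathlib

/-!
# E-T (MP_12a1af_nt), project T*: from dyadic blocks to all `x`
-/

set_option autoImplicit false

open Filter

namespace Pool.Agent.Helper32.ETT

/-- thick dyadic blocks make the set thick -/
theorem thick_of_blocks (A : Set ℕ) (K0 c k : ℕ)
    (h : ∀ K, K0 ≤ K → 2 ^ (K / 2 - c * (Nat.log 2 K + 1) ^ k) ≤
      (A ∩ Set.Ico (2 ^ K) (2 ^ (K + 1))).ncard) :
    ∃ B : ℝ, 0 < B ∧ ∀ᶠ x : ℕ in atTop,
      √(x : ℝ) * Real.exp (-(B * (Real.log (Real.log x)) ^ k)) ≤ ((A ∩ Set.Iio x).ncard : ℝ) := by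
  refine ⟨2 + c * 4 ^ k, by positivity, ?_⟩
  have hlog2 : Tendsto (fun x : ℕ => Real.log (Real.log (x : ℝ))) atTop atTop :=
    Real.tendsto_log_atTop.comp (Real.tendsto_log_atTop.comp tendsto_natCast_atTop_atTop)
  filter_upwards [eventually_ge_atTop (2 ^ (K0 + 2)), hlog2.eventually_ge_atTop 1] with x hx hLL
  set LL := Real.log (Real.log (x : ℝ)) with hLLdef
  have hx4 : 4 ≤ x := by
    calc 4 = 2 ^ 2 := by norm_num
      _ ≤ 2 ^ (K0 + 2) := Nat.pow_le_pow_right (by norm_num) (by omega)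
      _ ≤ x := hx
  have hx0 : x ≠ 0 := by omega
  have hxpos : (0 : ℝ) < x := by exact_mod_cast Nat.pos_of_ne_zero hx0
  obtain ⟨K, hK⟩ : ∃ K, Nat.log 2 x = K + 1 := by
    have : 1 ≤ Nat.log 2 x := by
      rw [Nat.le_log_iff_pow_le (by norm_num) hx0]
      omega
    exact ⟨Nat.log 2 x - 1, by omega⟩
  have hK0 : K0 ≤ K := by
    have : K0 + 2 ≤ Nat.log 2 x := (Nat.le_log_iff_pow_le (by norm_num) hx0).2 hx
    omega
  have hKx : 2 ^ (K + 1) ≤ x := by rw [← hK]; exact Nat.pow_log_le_self 2 hx0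
  have hxK : x < 2 ^ (K + 2) := by
    have := Nat.lt_pow_succ_log_self (b := 2) (by norm_num) x
    rwa [hK] at this
  have h1 := h K hK0
  set n := Nat.log 2 K + 1 with hn
  -- cardinalities
  have hfin : (A ∩ Set.Iio x).Finite := (Set.finite_Iio x).subset Set.inter_subset_right
  have h2 : (A ∩ Set.Ico (2 ^ K) (2 ^ (K + 1))).ncard ≤ (A ∩ Set.Iio x).ncard :=
    Set.ncard_le_ncard (Set.inter_subset_inter_right _ fun y hy => lt_of_lt_of_le hy.2 hKx) hfin
  have h3 : (2 : ℝ) ^ (K / 2 - c * n ^ k) ≤ ((A ∩ Set.Iio x).ncard : ℝ) := by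
    exact_mod_cast h1.trans h2
  refine le_trans ?_ h3
  -- real exponents
  have h4 : (2 : ℝ) ^ (((K : ℝ) / 2 - 1 / 2) - c * n ^ k : ℝ) ≤ (2 : ℝ) ^ (K / 2 - c * n ^ k) := by
    rw [← Real.rpow_natCast 2 (K / 2 - c * n ^ k)]
    refine Real.rpow_le_rpow_of_exponent_le (by norm_num) ?_
    have e1 : ((K : ℝ) / 2 - 1 / 2) ≤ ((K / 2 : ℕ) : ℝ) := by
      have : K ≤ 2 * (K / 2) + 1 := by omega
      have : (K : ℝ) ≤ 2 * ((K / 2 : ℕ) : ℝ) + 1 := by exact_mod_cast this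
      linarith
    have e2 : ((K / 2 : ℕ) : ℝ) ≤ ((K / 2 - c * n ^ k : ℕ) : ℝ) + ((c * n ^ k : ℕ) : ℝ) := by
      have : K / 2 ≤ (K / 2 - c * n ^ k) + c * n ^ k := by omega
      exact_mod_cast this
    push_cast at e2 ⊢
    linarith
  refine le_trans ?_ h4
  -- the square root
  have h5 : √(x : ℝ) ≤ (2 : ℝ) ^ ((K : ℝ) / 2 + 1) := by
    rw [Real.sqrt_le_left (by positivity), ← Real.rpow_natCast, ← Real.rpow_mul (by norm_num)]
    have : ((K : ℝ) / 2 + 1) * ((2 : ℕ) : ℝ) = ((K + 2 : ℕ) : ℝ) := by push_cast; ring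
    rw [this, Real.rpow_natCast]
    exact_mod_cast hxK.le
  -- logarithms
  have hl2 : (0.69 : ℝ) < Real.log 2 := by have := Real.log_two_gt_d9; linarith
  have hl2' : Real.log 2 < (0.7 : ℝ) := by have := Real.log_two_lt_d9; linarith
  have hnLL : (n : ℝ) ≤ 4 * LL := by
    have hKpos : 1 ≤ K := by
      by_contra h0
      have hK00 : K = 0 := by omega
      rw [hK00] at hxK
      omega
    have e1 : (Nat.log 2 K : ℝ) * Real.log 2 ≤ Real.log K := by
      have : (2 : ℝ) ^ (Nat.log 2 K) ≤ K := by exact_mod_cast Nat.pow_log_le_self 2 (by omega)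
      calc (Nat.log 2 K : ℝ) * Real.log 2 = Real.log ((2 : ℝ) ^ (Nat.log 2 K)) := by
            rw [Real.log_pow]
        _ ≤ Real.log K := Real.log_le_log (by positivity) this
    have e2 : (K : ℝ) * Real.log 2 ≤ Real.log x := by
      have : (2 : ℝ) ^ K ≤ x := by
        have : 2 ^ K ≤ x := le_trans (Nat.pow_le_pow_right (by norm_num) (by omega)) hKx
        exact_mod_cast this
      calc (K : ℝ) * Real.log 2 = Real.log ((2 : ℝ) ^ K) := by rw [Real.log_pow]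
        _ ≤ Real.log x := Real.log_le_log (by positivity) this
    have hKr : (1 : ℝ) ≤ K := by exact_mod_cast hKpos
    have hlx : 0 < Real.log x := by nlinarith
    have e3 : (K : ℝ) ≤ 2 * Real.log x := by nlinarith
    have e4 : Real.log K ≤ Real.log 2 + LL := by
      calc Real.log K ≤ Real.log (2 * Real.log x) := Real.log_le_log (by linarith) e3
        _ = Real.log 2 + LL := by rw [Real.log_mul (by norm_num) hlx.ne']
    have e5 : (Nat.log 2 K : ℝ) * 0.69 ≤ 0.7 + LL := by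
      have h0 : (0 : ℝ) ≤ Nat.log 2 K := Nat.cast_nonneg _
      nlinarith
    rw [hn]
    push_cast
    nlinarith
  have hnk : (n : ℝ) ^ k ≤ 4 ^ k * LL ^ k := by
    rw [← mul_pow]
    exact pow_le_pow_left₀ (Nat.cast_nonneg _) hnLL k
  have hLLk : (1 : ℝ) ≤ LL ^ k := one_le_pow₀ hLL
  have h6 : Real.exp (-((2 + c * 4 ^ k) * LL ^ k)) ≤ (2 : ℝ) ^ (-(3 / 2 + c * n ^ k) : ℝ) := by
    rw [Real.rpow_def_of_pos (by norm_num)]
    refine Real.exp_le_exp.2 ?_
    have e1 : (0 : ℝ) ≤ c := Nat.cast_nonneg _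
    have e2 : (c : ℝ) * n ^ k ≤ c * (4 ^ k * LL ^ k) := mul_le_mul_of_nonneg_left hnk e1
    have e3 : (0 : ℝ) ≤ c * (n : ℝ) ^ k := by positivity
    nlinarith
  calc √(x : ℝ) * Real.exp (-((2 + c * 4 ^ k) * LL ^ k))
      ≤ (2 : ℝ) ^ ((K : ℝ) / 2 + 1) * (2 : ℝ) ^ (-(3 / 2 + c * n ^ k) : ℝ) :=
        mul_le_mul h5 h6 (Real.exp_pos _).le (by positivity)
    _ = (2 : ℝ) ^ (((K : ℝ) / 2 - 1 / 2) - c * n ^ k : ℝ) := by
        rw [← Real.rpow_add (by norm_num)]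
        congr 1
        ring

end Pool.Agent.Helper32.ETT
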