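import Mathlib
import Pool.Agent.Helper3.ETF.Lists
import Pool.Agent.ETS.Reg

/-!
# E-T (MP_12a1af_nt), project T*: thickness of a layout

A region `r` has defect at most `q` if `2 ^ (top - bot) ≤ (2 ^ q * |V r|) ^ 2`.  The number of the
elements of a layout all of whose regions have defect at most `q` is at least
`2 ^ (K / 2 - q * length)`.
-/

set_option autoImplicit false

open Finset

namespace Pool.Agent.Helper32.ETT

open Pool.Agent.ETS Pool.Agent.ETP

/-- `2 ^ len ≤ (2 ^ q * |V|) ^ 2` -/
def Dft (q len : ℕ) (V : Finset ℕ) : Prop := 2 ^ len ≤ (2 ^ q * V.card) ^ 2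

theorem Dft.mono {q q' len : ℕ} {V : Finset ℕ} (h : Dft q len V) (hq : q ≤ q') :
    Dft q' len V :=
  h.trans (Nat.pow_le_pow_left (Nat.mul_le_mul_right _ (Nat.pow_le_pow_right (by norm_num) hq)) 2)

theorem Dft.mul {q q' len len' : ℕ} {V V' : Finset ℕ} (h : Dft q len V) (h' : Dft q' len' V') :
    Dft (q + q') (len + len') (pairs V V') := by
  unfold Dft at *
  rw [card_pairs]
  calc 2 ^ (len + len') = 2 ^ len * 2 ^ len' := pow_add _ _ _
    _ ≤ (2 ^ q * V.card) ^ 2 * (2 ^ q' * V'.card) ^ 2 := Nat.mul_le_mul h h'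
    _ = (2 ^ (q + q') * (V.card * V'.card)) ^ 2 := by rw [pow_add]; ring

theorem Dft.pos {q len : ℕ} {V : Finset ℕ} (h : Dft q len V) : 0 < V.card := by
  rcases Nat.eq_zero_or_pos V.card with h0 | h0
  · unfold Dft at h
    rw [h0] at h
    simp at h
  · exact h0

theorem Dft.one {q len : ℕ} {V : Finset ℕ} (h : V.Nonempty) (hl : len ≤ 2 * q) : Dft q len V := by
  unfold Dft
  have h1 : 1 ≤ V.card := card_pos.2 h
  calc 2 ^ len ≤ 2 ^ (2 * q) := Nat.pow_le_pow_right (by norm_num) hl
    _ = (2 ^ q * 1) ^ 2 := by rw [mul_one, ← pow_mul, mul_comm]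
    _ ≤ (2 ^ q * V.card) ^ 2 := Nat.pow_le_pow_left (Nat.mul_le_mul_left _ h1) 2

/-- from a bound with rounding -/
theorem Dft.of_half {q len : ℕ} {V : Finset ℕ} (h : 2 ^ (len / 2) ≤ 2 ^ q * V.card) :
    Dft (q + 1) len V := by
  unfold Dft
  calc 2 ^ len ≤ 2 ^ (2 * (len / 2) + 2) := Nat.pow_le_pow_right (by norm_num) (by omega)
    _ = 4 * (2 ^ (len / 2)) ^ 2 := by rw [← pow_mul]; ring
    _ ≤ 4 * (2 ^ q * V.card) ^ 2 := Nat.mul_le_mul_left _ (Nat.pow_le_pow_left h 2)
    _ = (2 ^ (q + 1) * V.card) ^ 2 := by ring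

/-- the lengths of the regions of a list add up -/
theorem sum_len {C : Codes} (l : List Reg) : ∀ (a K : ℕ), l ≠ [] →
    (∀ r, l[0]? = some r → r.bot = a) →
    (∀ j r r', l[j]? = some r → l[j+1]? = some r' → r.top C = r'.bot) →
    (∀ r, l[l.length-1]? = some r → r.top C = K) → (∀ r ∈ l, r.bot ≤ r.top C) →
    a + (l.map fun r => r.top C - r.bot).sum = K := by
  induction l with
  | nil => intro a K h; exact absurd rfl h
  | cons r l ih =>
    intro a K _ h0 hn hl hle
    have hr : r.bot = a := h0 r (by simp)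
    have hrle : r.bot ≤ r.top C := hle r (by simp)
    rw [List.map_cons, List.sum_cons]
    rcases l.eq_nil_or_concat with h | ⟨l', r', h⟩
    · subst h
      have := hl r (by simp)
      simp only [List.map_nil, List.sum_nil]
      omega
    · have hne : l ≠ [] := by rw [h]; simp
      have := ih (r.top C) K hne (fun r' hr' => by
          exact (hn 0 r r' (by simp) (by simpa using hr')).symm)
        (fun j r1 r2 h1 h2 => hn (j + 1) r1 r2 (by simpa using h1) (by simpa using h2))
        (fun r1 h1 => hl r1 (by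
          have hpos : 0 < l.length := List.length_pos_iff.2 hne
          have e : (r :: l).length - 1 = (l.length - 1) + 1 := by
            rw [List.length_cons]; omega
          rw [e]
          simpa using h1))
        (fun r1 h1 => hle r1 (by simp [h1]))
      omega

/-- the number of the elements of a layout -/
theorem prod_sq {C : Codes} {q : ℕ} (l : List Reg) (h : ∀ r ∈ l, Dft q (r.top C - r.bot) (r.V C)) :
    2 ^ (l.map fun r => r.top C - r.bot).sum ≤
      (2 ^ (q * l.length) * (l.map fun r => (r.V C).card).prod) ^ 2 := by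
  induction l with
  | nil => simp
  | cons r l ih =>
    have h1 := ih fun r' hr' => h r' (by simp [hr'])
    have h2 : 2 ^ (r.top C - r.bot) ≤ (2 ^ q * (r.V C).card) ^ 2 := h r (by simp)
    rw [List.map_cons, List.sum_cons, List.map_cons, List.prod_cons, List.length_cons, pow_add]
    calc 2 ^ (r.top C - r.bot) * 2 ^ (l.map fun r => r.top C - r.bot).sum
        ≤ (2 ^ q * (r.V C).card) ^ 2 *
          (2 ^ (q * l.length) * (l.map fun r => (r.V C).card).prod) ^ 2 := Nat.mul_le_mul h2 h1
      _ = (2 ^ (q * (l.length + 1)) * ((r.V C).card *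
          (l.map fun r => (r.V C).card).prod)) ^ 2 := by
          rw [mul_add, mul_one, pow_add]; ring

/-- **thickness of a layout** -/
theorem cnt_le {C : Codes} {K q : ℕ} {l : List Reg} (H : IsLay C K l)
    (h : ∀ r ∈ l, Dft q (r.top C - r.bot) (r.V C)) :
    2 ^ (K / 2 - q * l.length) ≤ (l.map fun r => (r.V C).card).prod := by
  have hne : l ≠ [] := by
    intro h0
    have := H.len2
    rw [h0] at this
    simp at this
  have h1 := sum_len l 0 K hne H.first H.next H.last H.le
  have h2 := prod_sq l h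
  rw [zero_add] at h1
  rw [h1] at h2
  set X := (l.map fun r => (r.V C).card).prod with hX
  have hpos : 0 < X := by
    rcases Nat.eq_zero_or_pos X with h0 | h0
    · rw [h0] at h2
      simp at h2
    · exact h0
  rcases Nat.lt_or_ge (K / 2) (q * l.length) with h3 | h3
  · rw [Nat.sub_eq_zero_of_le h3.le, pow_zero]
    exact hpos
  · have h4 : (2 ^ (q * l.length) * 2 ^ (K / 2 - q * l.length)) ^ 2 ≤
        (2 ^ (q * l.length) * X) ^ 2 := by
      refine le_trans ?_ h2
      rw [← pow_add, ← pow_mul]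
      exact Nat.pow_le_pow_right (by norm_num) (by omega)
    have h5 := (Nat.pow_le_pow_iff_left (by norm_num)).1 h4
    exact Nat.le_of_mul_le_mul_left h5 (by positivity)

/-! ### the kinds of regions -/

variable {C : Codes} {q q' q'' : ℕ}

theorem dft_P {p f b : ℕ} (h : Dft q (b - f) (C.X p (b - f))) :
    Dft q ((Reg.P p f b).top C - (Reg.P p f b).bot) ((Reg.P p f b).V C) := h

theorem dft_PT {p e f b : ℕ} (hfb : f ≤ b) (h : Dft q (b - f) (C.X p (b - f)))
    (h' : Dft q' (C.W e) (C.T e)) :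
    Dft (q + q') ((Reg.PT p e f b).top C - (Reg.PT p e f b).bot) ((Reg.PT p e f b).V C) := by
  have e1 : (Reg.PT p e f b).top C - (Reg.PT p e f b).bot = b - f + C.W e := by
    show b + C.W e - f = b - f + C.W e
    omega
  rw [e1]
  exact h.mul h'

theorem dft_R {b v : ℕ} (h : Dft q (v - b) (C.Y (v - b))) :
    Dft q ((Reg.R b v).top C - (Reg.R b v).bot) ((Reg.R b v).V C) := h

theorem dft_RT {e b v : ℕ} (hbv : b + C.W e ≤ v)
    (h : Dft q (v - b - C.W e) (C.Y (v - b - C.W e))) (h' : Dft q' (C.W e) (C.T e)) :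
    Dft (q + q') ((Reg.RT e b v).top C - (Reg.RT e b v).bot) ((Reg.RT e b v).V C) := by
  have e1 : (Reg.RT e b v).top C - (Reg.RT e b v).bot = v - b - C.W e + C.W e := by
    show v - b = v - b - C.W e + C.W e
    omega
  rw [e1]
  exact h.mul h'

theorem dft_RTh {e b v : ℕ} (hbv : b + C.W e ≤ v)
    (h : Dft q (v - b - C.W e) (C.Y (v - b - C.W e))) (h' : Dft q' (C.W e) (C.Th e)) :
    Dft (q + q') ((Reg.RTh e b v).top C - (Reg.RTh e b v).bot) ((Reg.RTh e b v).V C) := by
  have e1 : (Reg.RTh e b v).top C - (Reg.RTh e b v).bot = v - b - C.W e + C.W e := by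
    show v - b = v - b - C.W e + C.W e
    omega
  rw [e1]
  exact h.mul h'

theorem dft_win {a K : ℕ} (h : Dft q (K - a) (C.TK K)) :
    Dft q ((Reg.win a K).top C - (Reg.win a K).bot) ((Reg.win a K).V C) := h

theorem dft_winC {e a h K : ℕ} (hW : C.W e ≤ h) (haK : a + h ≤ K)
    (h1 : Dft q (h - C.W e) (C.Y (h - C.W e))) (h2 : Dft q' (C.W e) (C.Th e))
    (h3 : Dft q'' (K - a - h) (C.TK K)) :
    Dft (q + q' + q'') ((Reg.winC e a h K).top C - (Reg.winC e a h K).bot)
      ((Reg.winC e a h K).V C) := by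
  have e1 : (Reg.winC e a h K).top C - (Reg.winC e a h K).bot =
      h - C.W e + C.W e + (K - a - h) := by
    show K - a = h - C.W e + C.W e + (K - a - h)
    omega
  rw [e1]
  exact (h1.mul h2).mul h3

end Pool.Agent.Helper32.ETT
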