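import Mathlib

/-!
# E-T (MP_12a1af_nt), project T*: primes in the intervals `(2 ^ (l / 2 - 1), 2 ^ (l / 2))`

All bounds are stated with squares, so that `l` may be odd.
-/

set_option autoImplicit false

namespace Pool.Agent.Helper32.ETT

open Finset

/-- the primes in `(n, 2 n]` -/
def bp (n : ℕ) : Finset ℕ := (Ioc n (2 * n)).filter Nat.Prime

theorem centralBinom_le (n : ℕ) (hn : 2 < n) :
    n.centralBinom ≤ (2 * n) ^ Nat.sqrt (2 * n) * 4 ^ (2 * n / 3) * (2 * n) ^ (bp n).card := by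
  have n_pos : 0 < n := by omega
  have n2_pos : 1 ≤ 2 * n := by omega
  set f : ℕ → ℕ := fun x => x ^ n.centralBinom.factorization x with hf
  have hprod : ∏ x ∈ range (2 * n + 1), f x = n.centralBinom :=
    n.prod_pow_factorization_centralBinom
  rw [← hprod]
  have hsplit : ∏ x ∈ range (2 * n + 1), f x =
      (∏ x ∈ range (2 * n / 3 + 1), f x) * ∏ x ∈ Ico (2 * n / 3 + 1) (2 * n + 1), f x :=
    (prod_range_mul_prod_Ico f (by omega)).symm
  rw [hsplit]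
  refine Nat.mul_le_mul ?_ ?_
  · set S := {p ∈ range (2 * n / 3 + 1) | Nat.Prime p} with hS
    have : ∏ x ∈ S, f x = ∏ x ∈ range (2 * n / 3 + 1), f x := by
      refine prod_filter_of_ne fun p _ h => ?_
      contrapose h
      simp only [hf]
      rw [Nat.factorization_eq_zero_of_not_prime n.centralBinom h, pow_zero]
    rw [← this, ← prod_filter_mul_prod_filter_not S (· ≤ Nat.sqrt (2 * n))]
    refine Nat.mul_le_mul ?_ ?_
    · refine (prod_le_prod' fun p _ => (?_ : f p ≤ 2 * n)).trans ?_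
      · exact Nat.pow_factorization_choose_le (by omega)
      have : (Icc 1 (Nat.sqrt (2 * n))).card = Nat.sqrt (2 * n) := by
        rw [Nat.card_Icc, Nat.add_sub_cancel]
      rw [prod_const]
      refine pow_right_mono₀ n2_pos ((card_le_card fun x hx => ?_).trans this.le)
      obtain ⟨h1, h2⟩ := mem_filter.1 hx
      exact mem_Icc.mpr ⟨(mem_filter.1 h1).2.one_lt.le, h2⟩
    · refine le_trans ?_ (primorial_le_four_pow (2 * n / 3))
      refine (prod_le_prod' fun p hp => (?_ : f p ≤ p)).trans ?_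
      · obtain ⟨h1, h2⟩ := mem_filter.1 hp
        refine (pow_right_mono₀ (mem_filter.1 h1).2.one_lt.le ?_).trans (pow_one p).le
        exact Nat.factorization_choose_le_one (Nat.sqrt_lt'.mp <| not_le.1 h2)
      refine prod_le_prod_of_subset_of_one_le' (filter_subset _ _) ?_
      exact fun p hp _ => (mem_filter.1 hp).2.one_lt.le
  · have hsub : bp n ⊆ Ico (2 * n / 3 + 1) (2 * n + 1) := by
      intro p hp
      rw [bp, mem_filter, mem_Ioc] at hp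
      rw [mem_Ico]
      omega
    rw [← prod_subset hsub]
    · refine prod_le_pow_card _ _ _ fun p _ => ?_
      exact Nat.pow_factorization_choose_le (by omega)
    · intro p hp hnp
      rw [mem_Ico] at hp
      simp only [hf]
      by_cases hpr : p.Prime
      · have hpn : p ≤ n := by
          by_contra h
          exact hnp (mem_filter.2 ⟨mem_Ioc.2 ⟨not_le.1 h, by omega⟩, hpr⟩)
        rw [Nat.factorization_centralBinom_of_two_mul_self_lt_three_mul hn hpn (by omega), pow_zero]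
      · rw [Nat.factorization_eq_zero_of_not_prime _ hpr, pow_zero]

/-- a lower bound for the number of primes in `(n, 2 n]` -/
theorem bp_bound (n l : ℕ) (hn : 4 ≤ n) (hl : (2 * n) ^ 2 ≤ 2 ^ l) :
    4 * (n - 2 * n / 3) < l * (Nat.sqrt (2 * n) + (bp n).card + 1) := by
  set s := Nat.sqrt (2 * n)
  set k := (bp n).card
  have h1 := Nat.four_pow_lt_mul_centralBinom n hn
  have h2 := centralBinom_le n (by omega)
  have h3 : 4 ^ n < (2 * n) ^ (s + k + 1) * 4 ^ (2 * n / 3) := by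
    calc 4 ^ n < n * n.centralBinom := h1
      _ ≤ n * ((2 * n) ^ s * 4 ^ (2 * n / 3) * (2 * n) ^ k) := Nat.mul_le_mul_left _ h2
      _ ≤ (2 * n) * ((2 * n) ^ s * 4 ^ (2 * n / 3) * (2 * n) ^ k) :=
        Nat.mul_le_mul_right _ (by omega)
      _ = (2 * n) ^ (s + k + 1) * 4 ^ (2 * n / 3) := by ring
  have h4 : 4 ^ n = 4 ^ (n - 2 * n / 3) * 4 ^ (2 * n / 3) := by
    rw [← pow_add]
    congr 1
    omega
  rw [h4] at h3
  have h5 : 4 ^ (n - 2 * n / 3) < (2 * n) ^ (s + k + 1) := lt_of_mul_lt_mul_right h3 (Nat.zero_le _)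
  have h6 : 2 ^ (4 * (n - 2 * n / 3)) < 2 ^ (l * (s + k + 1)) := by
    calc 2 ^ (4 * (n - 2 * n / 3)) = (4 ^ (n - 2 * n / 3)) ^ 2 := by
          rw [← pow_mul, show (4 : ℕ) = 2 ^ 2 by norm_num, ← pow_mul]
          congr 1
          ring
      _ < ((2 * n) ^ (s + k + 1)) ^ 2 := Nat.pow_lt_pow_left h5 (by norm_num)
      _ = ((2 * n) ^ 2) ^ (s + k + 1) := by
          rw [← pow_mul, ← pow_mul, Nat.mul_comm (s + k + 1) 2]
      _ ≤ (2 ^ l) ^ (s + k + 1) := Nat.pow_le_pow_left hl _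
      _ = 2 ^ (l * (s + k + 1)) := by rw [← pow_mul]
  exact (Nat.pow_lt_pow_iff_right (by norm_num)).1 h6

theorem four_mul_pow_le (l : ℕ) (hl : 32 ≤ l) : (4 * l) ^ 4 ≤ 2 ^ l := by
  induction l, hl using Nat.le_induction with
  | base => norm_num
  | succ l hl ih =>
    have h1 : (l + 1) ^ 4 ≤ 2 * l ^ 4 := by
      have : (l + 1) * 32 ≤ l * 33 := by omega
      have h2 : ((l + 1) * 32) ^ 4 ≤ (l * 33) ^ 4 := Nat.pow_le_pow_left this 4
      have h3 : ((l + 1) * 32) ^ 4 = (l + 1) ^ 4 * 32 ^ 4 := by ring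
      have h4 : (l * 33) ^ 4 = l ^ 4 * 33 ^ 4 := by ring
      rw [h3, h4] at h2
      have h5 : l ^ 4 * 33 ^ 4 ≤ (2 * l ^ 4) * 32 ^ 4 := by
        have : (33 : ℕ) ^ 4 ≤ 2 * 32 ^ 4 := by norm_num
        calc l ^ 4 * 33 ^ 4 ≤ l ^ 4 * (2 * 32 ^ 4) := Nat.mul_le_mul_left _ this
          _ = (2 * l ^ 4) * 32 ^ 4 := by ring
      exact Nat.le_of_mul_le_mul_right (h2.trans h5) (by norm_num)
    calc (4 * (l + 1)) ^ 4 = 256 * (l + 1) ^ 4 := by ring
      _ ≤ 256 * (2 * l ^ 4) := Nat.mul_le_mul_left _ h1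
      _ = 2 * (4 * l) ^ 4 := by ring
      _ ≤ 2 * 2 ^ l := Nat.mul_le_mul_left _ ih
      _ = 2 ^ (l + 1) := by ring

/-- primes in `(2 ^ (l / 2 - 1), 2 ^ (l / 2))`, `l` large -/
theorem card_large (l : ℕ) (hl : 32 ≤ l) (Y : Finset ℕ)
    (hY : ∀ p : ℕ, p.Prime → 2 ^ l < 4 * p ^ 2 → p ^ 2 < 2 ^ l → p ∈ Y) :
    2 ^ l ≤ (4 * l * Y.card) ^ 2 := by
  set n := Nat.sqrt (2 ^ (l - 2)) with hn
  have hpow : 2 ^ l = 4 * 2 ^ (l - 2) := by
    rw [show (4 : ℕ) = 2 ^ 2 by norm_num, ← pow_add]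
    congr 1
    omega
  have hn1 : n ^ 2 ≤ 2 ^ (l - 2) := Nat.sqrt_le' _
  have hn2 : 2 ^ (l - 2) < (n + 1) ^ 2 := Nat.lt_succ_sqrt' _
  have hnbig : 2 ^ 15 ≤ n := by
    rw [hn, Nat.le_sqrt']
    calc (2 ^ 15) ^ 2 = 2 ^ 30 := by norm_num
      _ ≤ 2 ^ (l - 2) := Nat.pow_le_pow_right (by norm_num) (by omega)
  have hn3 : (2 * n) ^ 2 ≤ 2 ^ l := by rw [hpow, mul_pow]; omega
  have hb := bp_bound n l (by omega) hn3
  have hsub : bp n ⊆ Y := by
    intro p hp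
    rw [bp, mem_filter, mem_Ioc] at hp
    obtain ⟨⟨h1, h2⟩, h3⟩ := hp
    refine hY p h3 ?_ ?_
    · rw [hpow]
      have : (n + 1) ^ 2 ≤ p ^ 2 := Nat.pow_le_pow_left h1 2
      omega
    · have h4 : p ^ 2 ≤ (2 * n) ^ 2 := Nat.pow_le_pow_left h2 2
      refine lt_of_le_of_ne (h4.trans hn3) ?_
      intro h5
      have h6 : p ∣ 2 ^ l := by rw [← h5]; exact dvd_pow_self p (by norm_num)
      have h7 := (Nat.prime_dvd_prime_iff_eq h3 Nat.prime_two).1 (h3.dvd_of_dvd_pow h6)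
      omega
  have hk : (bp n).card ≤ Y.card := card_le_card hsub
  set k := Y.card with hkdef
  set s := Nat.sqrt (2 * n) with hs
  have hs1 : s ^ 2 ≤ 2 * n := Nat.sqrt_le' _
  have hb' : 4 * (n - 2 * n / 3) < l * (s + k + 1) :=
    lt_of_lt_of_le hb (Nat.mul_le_mul_left _ (by omega))
  have hb2 : 4 * n < 3 * (l * (s + k + 1)) := by omega
  have hl4 := four_mul_pow_le l hl
  have hl2 : 8 * l ^ 2 ≤ n := by
    by_contra hcon
    push Not at hcon
    have h1 : (2 * (n + 1)) ^ 2 ≤ (16 * l ^ 2) ^ 2 := Nat.pow_le_pow_left (by omega) 2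
    have h2 : (4 * l) ^ 4 = (16 * l ^ 2) ^ 2 := by ring
    have h3 : (2 * (n + 1)) ^ 2 = 4 * (n + 1) ^ 2 := by ring
    omega
  -- `2 l s ≤ n`
  have hls : 2 * (l * s) ≤ n := by
    have h1 : (2 * (l * s)) ^ 2 ≤ n ^ 2 := by
      calc (2 * (l * s)) ^ 2 = 4 * l ^ 2 * s ^ 2 := by ring
        _ ≤ 4 * l ^ 2 * (2 * n) := Nat.mul_le_mul_left _ hs1
        _ = 8 * l ^ 2 * n := by ring
        _ ≤ n * n := Nat.mul_le_mul_right _ hl2
        _ = n ^ 2 := by ring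
    exact (Nat.pow_le_pow_iff_left (by norm_num)).1 h1
  have hl1 : 256 * l ≤ n := by
    have : 256 * l ≤ 8 * l ^ 2 := by nlinarith
    omega
  have e1 : l * (s + k + 1) = l * s + l * k + l := by ring
  rw [e1] at hb2
  have h5 : 2 * (n + 1) ≤ 4 * (l * k) := by omega
  calc 2 ^ l = 4 * 2 ^ (l - 2) := hpow
    _ ≤ 4 * (n + 1) ^ 2 := by omega
    _ = (2 * (n + 1)) ^ 2 := by ring
    _ ≤ (4 * (l * k)) ^ 2 := Nat.pow_le_pow_left h5 2
    _ = (4 * l * k) ^ 2 := by ring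

/-- there is a prime in `(2 ^ (l / 2 - 1), 2 ^ (l / 2))` for `l ≥ 3` -/
theorem exists_prime_dyadic (l : ℕ) (hl : 3 ≤ l) :
    ∃ p : ℕ, p.Prime ∧ 2 ^ l < 4 * p ^ 2 ∧ p ^ 2 < 2 ^ l := by
  set n := Nat.sqrt (2 ^ (l - 2)) with hn
  have hpow : 2 ^ l = 4 * 2 ^ (l - 2) := by
    rw [show (4 : ℕ) = 2 ^ 2 by norm_num, ← pow_add]
    congr 1
    omega
  have hn1 : n ^ 2 ≤ 2 ^ (l - 2) := Nat.sqrt_le' _
  have hn2 : 2 ^ (l - 2) < (n + 1) ^ 2 := Nat.lt_succ_sqrt' _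
  have hpos : 0 < n := by
    rw [hn, Nat.sqrt_pos]
    positivity
  obtain ⟨p, hp, h1, h2⟩ := Nat.exists_prime_lt_and_le_two_mul n (by omega)
  refine ⟨p, hp, ?_, ?_⟩
  · rw [hpow]
    have : (n + 1) ^ 2 ≤ p ^ 2 := Nat.pow_le_pow_left h1 2
    omega
  · have h4 : p ^ 2 ≤ (2 * n) ^ 2 := Nat.pow_le_pow_left h2 2
    have hn3 : (2 * n) ^ 2 ≤ 2 ^ l := by rw [hpow, mul_pow]; omega
    refine lt_of_le_of_ne (h4.trans hn3) ?_
    intro h5
    have h6 : p ∣ 2 ^ l := by rw [← h5]; exact dvd_pow_self p (by norm_num)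
    have h7 := (Nat.prime_dvd_prime_iff_eq hp Nat.prime_two).1 (hp.dvd_of_dvd_pow h6)
    rw [h7] at h5
    have h8 : l = 2 := (Nat.pow_right_injective (le_refl 2) h5).symm
    omega

/-- primes in `(2 ^ (l / 2 - 1), 2 ^ (l / 2))`, all `l ≥ 3` -/
theorem card_all (l : ℕ) (hl : 3 ≤ l) (Y : Finset ℕ)
    (hY : ∀ p : ℕ, p.Prime → 2 ^ l < 4 * p ^ 2 → p ^ 2 < 2 ^ l → p ∈ Y) :
    2 ^ l ≤ (2 ^ 16 * l * Y.card) ^ 2 := by
  rcases Nat.lt_or_ge l 32 with h | h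
  · obtain ⟨p, hp, h1, h2⟩ := exists_prime_dyadic l hl
    have hpos : 1 ≤ Y.card := card_pos.2 ⟨p, hY p hp h1 h2⟩
    calc 2 ^ l ≤ 2 ^ 32 := Nat.pow_le_pow_right (by norm_num) h.le
      _ = (2 ^ 16) ^ 2 := by norm_num
      _ ≤ (2 ^ 16 * l * Y.card) ^ 2 := by
        refine Nat.pow_le_pow_left ?_ 2
        have : 1 ≤ l * Y.card := Nat.mul_pos (by omega) hpos
        calc 2 ^ 16 = 2 ^ 16 * 1 := by ring
          _ ≤ 2 ^ 16 * (l * Y.card) := Nat.mul_le_mul_left _ this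
          _ = 2 ^ 16 * l * Y.card := by ring
  · refine (card_large l h Y hY).trans (Nat.pow_le_pow_left ?_ 2)
    exact Nat.mul_le_mul_right _ (Nat.mul_le_mul_right _ (by norm_num))

/-- odd primes below `2 ^ (l / 2)`, all `l ≥ 4` -/
theorem card_all_odd (l : ℕ) (hl : 4 ≤ l) (X : Finset ℕ)
    (hX : ∀ p : ℕ, p.Prime → p ≠ 2 → p ^ 2 < 2 ^ l → p ∈ X) :
    2 ^ l ≤ (2 ^ 16 * l * X.card) ^ 2 := by
  refine card_all l (by omega) X fun p hp h1 h2 => hX p hp ?_ h2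
  rintro rfl
  have : (2 : ℕ) ^ 4 ≤ 2 ^ l := Nat.pow_le_pow_right (by norm_num) hl
  omega

end Pool.Agent.Helper32.ETT
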