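import Mathlib
import Pool.Agent.Helper32.ETT.Prod
import Pool.Agent.Helper32.ETT.Primes
import Pool.Agent.Helper83.ET.AllCodes

/-!
# E-T (MP_12a1af_nt), project T*: sizes of the sets of the codes
-/

set_option autoImplicit false

open Finset

namespace Pool.Agent.Helper32.ETT

open Pool.Agent.ETS Pool.Agent.Helper83.ET Pool.Agent.ETP

theorem lt_log (K : ℕ) : K + 1 ≤ 2 ^ (Nat.log 2 K + 1) := Nat.lt_pow_succ_log_self (by norm_num) K

/-- the defect of all sets up to scale `K` -/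
def dq (C K : ℕ) : ℕ := (6 * C ^ 13 + 30) * (Nat.log 2 K + 1) ^ 2

theorem dft_VZ_aux {l K : ℕ} (hl : l ≤ K) {n m : ℕ} {X : Finset ℕ}
    (h : (VZ l).card ≤ 4 ^ n * X.card) (hm : 2 * n + Nat.log 2 K + 6 ≤ m) : Dft m l X := by
  have h1 : 2 ^ (l / 2) ≤ 16 * (l + 1) * (VZ l).card := VZ_card l
  have h2 : l + 1 ≤ 2 ^ (Nat.log 2 K + 1) := le_trans (by omega) (lt_log K)
  have h3 : 2 ^ (l / 2) ≤ 2 ^ (2 * n + Nat.log 2 K + 5) * X.card := by
    calc 2 ^ (l / 2) ≤ 16 * (l + 1) * (VZ l).card := h1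
      _ ≤ 16 * 2 ^ (Nat.log 2 K + 1) * (4 ^ n * X.card) :=
        Nat.mul_le_mul (Nat.mul_le_mul_left _ h2) h
      _ = 2 ^ (2 * n + Nat.log 2 K + 5) * X.card := by
        have e1 : (4 : ℕ) ^ n = 2 ^ (2 * n) := by
          rw [show (4 : ℕ) = 2 ^ 2 by norm_num, ← pow_mul]
        rw [e1]
        ring
  exact (Dft.of_half h3).mono (by omega)

theorem dft_X {C : ℕ} (hC : 256 ≤ C) (p : ℕ) {l K : ℕ} (hl : l ≤ K) :
    Dft (dq C K) l ((pcode C p).X l) := by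
  set j := max (e0 p) (Nat.log C K + 1) with hj
  have hlj : l ≤ C ^ j := by
    calc l ≤ K := hl
      _ ≤ C ^ (Nat.log C K + 1) := (Nat.lt_pow_succ_log_self (by omega) K).le
      _ ≤ C ^ j := Nat.pow_le_pow_right (by omega) (le_max_right _ _)
  have h1 := pcode_nb (p := p) hC (le_max_left (e0 p) (Nat.log C K + 1)) hlj
  have h2 : j - e0 p ≤ Nat.log 2 K + 1 := by
    have h3 : Nat.log C K ≤ Nat.log 2 K := Nat.log_anti_left (by norm_num) (by omega)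
    omega
  have h4 : (pcode C p).nb l ≤ (Nat.log 2 K + 1) * C ^ 6 + 1 :=
    h1.trans (Nat.add_le_add_right (Nat.mul_le_mul_right _ h2) 1)
  refine dft_VZ_aux hl ((pcode C p).card_X l) ?_
  set L := Nat.log 2 K + 1 with hL
  have h5 : L ≤ L ^ 2 := by nlinarith
  have h6 : C ^ 6 ≤ C ^ 13 := Nat.pow_le_pow_right (by omega) (by norm_num)
  have h7 : L * C ^ 6 ≤ L ^ 2 * C ^ 13 := Nat.mul_le_mul h5 h6
  have h8 : dq C K = 6 * (L ^ 2 * C ^ 13) + 30 * L ^ 2 := by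
    unfold dq
    rw [← hL]
    ring
  have h9 : Nat.log 2 K + 1 = L := rfl
  have h10 : 1 ≤ L := by omega
  rw [h8]
  omega

theorem dft_Y {C l K : ℕ} (h0 : l = 0 ∨ 4 ≤ l) (hl : l ≤ K) : Dft (dq C K) l (RC.Yq (l / 2)) := by
  rcases h0 with h0 | h0
  · rw [h0]
    exact Dft.one (by simp) (Nat.zero_le _)
  · have hh : l / 2 ≠ 0 := by omega
    rw [RC.Yq_of_pos hh]
    set h := l / 2 with hdef
    have h1 := card_all (2 * h) (by omega) (RC.Yp h) (by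
      intro p hp h2 h3
      rw [RC.mem_Yp]
      refine ⟨⟨?_, ?_⟩, hp⟩
      · have e1 : 2 ^ (2 * h) = (2 * 2 ^ (h - 1)) ^ 2 := by
          have : 2 * 2 ^ (h - 1) = 2 ^ h := by
            rw [← pow_succ']
            congr 1
            omega
          rw [this, ← pow_mul, mul_comm]
        have e2 : 4 * p ^ 2 = (2 * p) ^ 2 := by ring
        rw [e1, e2] at h2
        have := lt_of_pow_lt_pow_left₀ 2 (Nat.zero_le _) h2
        omega
      · have e1 : 2 ^ (2 * h) = (2 ^ h) ^ 2 := by rw [← pow_mul, mul_comm]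
        rw [e1] at h3
        exact lt_of_pow_lt_pow_left₀ 2 (Nat.zero_le _) h3)
    have h4 : 2 * h ≤ 2 ^ (Nat.log 2 K + 1) := by
      have := lt_log K
      omega
    have h5 : Dft (Nat.log 2 K + 18) l (RC.Yp h) := by
      unfold Dft
      calc 2 ^ l ≤ 2 ^ (2 * h + 2) := Nat.pow_le_pow_right (by norm_num) (by omega)
        _ = 4 * 2 ^ (2 * h) := by ring
        _ ≤ 4 * (2 ^ 16 * (2 * h) * (RC.Yp h).card) ^ 2 := Nat.mul_le_mul_left _ h1
        _ ≤ 4 * (2 ^ 16 * 2 ^ (Nat.log 2 K + 1) * (RC.Yp h).card) ^ 2 :=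
          Nat.mul_le_mul_left _ (Nat.pow_le_pow_left
            (Nat.mul_le_mul_right _ (Nat.mul_le_mul_left _ h4)) 2)
        _ = (2 ^ (Nat.log 2 K + 18) * (RC.Yp h).card) ^ 2 := by ring
    refine h5.mono ?_
    unfold dq
    set L := Nat.log 2 K + 1 with hL
    have h6 : L ≤ L ^ 2 := by nlinarith
    have h7 : 30 * L ^ 2 ≤ (6 * C ^ 13 + 30) * L ^ 2 := Nat.mul_le_mul_right _ (by omega)
    omega

theorem dft_T {C e : ℕ} {T Th : Finset ℕ} (h2 : 2 ∣ C) (he : 1 ≤ e) (h : LocGood C e T Th) :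
    Dft 10 (C ^ e) T := by
  unfold Dft
  rw [h.T_card]
  have h3 : 2 ∣ C ^ e := h2.trans (dvd_pow_self C (by omega))
  calc 2 ^ (C ^ e) ≤ 2 ^ (2 * (10 + (C ^ e / 2 - 10))) :=
        Nat.pow_le_pow_right (by norm_num) (by omega)
    _ = (2 ^ 10 * 2 ^ (C ^ e / 2 - 10)) ^ 2 := by rw [← pow_add, ← pow_mul, mul_comm]

theorem dft_Th {C e K : ℕ} {T Th : Finset ℕ} (hC : 2 ≤ C) (hK : C ^ e ≤ K)
    (h : LocGood C e T Th) : Dft (dq C K) (C ^ e) Th := by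
  refine dft_VZ_aux hK h.Th_large ?_
  have hK0 : K ≠ 0 := by
    rintro rfl
    have : 0 < C ^ e := by positivity
    omega
  have h3 : e ≤ Nat.log 2 K := by
    rw [Nat.le_log_iff_pow_le (by norm_num) hK0]
    exact (Nat.pow_le_pow_left hC e).trans hK
  unfold dq
  set L := Nat.log 2 K + 1 with hL
  have h4 : (e + 1) ^ 2 ≤ L ^ 2 := Nat.pow_le_pow_left (by omega) 2
  have h5 : C ^ 13 * (e + 1) ^ 2 ≤ C ^ 13 * L ^ 2 := Nat.mul_le_mul_left _ h4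
  have h6 : L ≤ L ^ 2 := by nlinarith
  have h7 : (6 * C ^ 13 + 30) * L ^ 2 = 6 * (C ^ 13 * L ^ 2) + 30 * L ^ 2 := by ring
  rw [h7]
  omega

/-! ### the final codes -/

variable {C : ℕ} {TK : ℕ → Finset ℕ}

theorem mk_dft_X (hC : 256 ≤ C) (p : ℕ) {l K : ℕ} (hl : l ≤ K) :
    Dft (dq C K) l ((mk C TK).X p l) := dft_X hC p hl

theorem mk_dft_Y {l K : ℕ} (h0 : l = 0 ∨ 4 ≤ l) (hl : l ≤ K) :
    Dft (dq C K) l ((mk C TK).Y l) := dft_Y h0 hl

theorem mk_dft_T (hC : 2 ^ 20 ≤ C) (h2 : 2 ∣ C) {e K : ℕ} (he : 20 ≤ e) :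
    Dft (dq C K) ((mk C TK).W e) ((mk C TK).T e) := by
  refine (dft_T h2 (by omega) (locGood hC h2 he)).mono ?_
  unfold dq
  have : 1 ≤ (Nat.log 2 K + 1) ^ 2 := Nat.one_le_pow _ _ (by omega)
  calc 10 ≤ (6 * C ^ 13 + 30) * 1 := by omega
    _ ≤ (6 * C ^ 13 + 30) * (Nat.log 2 K + 1) ^ 2 := Nat.mul_le_mul_left _ this

theorem mk_dft_Th (hC : 2 ^ 20 ≤ C) (h2 : 2 ∣ C) {e K : ℕ} (he : 20 ≤ e) (hK : C ^ e ≤ K) :
    Dft (dq C K) ((mk C TK).W e) ((mk C TK).Th e) :=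
  dft_Th (le_trans (by norm_num) hC) hK (locGood hC h2 he)

/-- well placed regions: the lengths of the variables of the `R` code are `0` or at least `4` -/
def RegOk (C K : ℕ) : Reg → Prop
  | Reg.P _ f b => f ≤ b ∧ b ≤ K
  | Reg.PT _ e f b => f ≤ b ∧ b + C ^ e ≤ K ∧ 20 ≤ e
  | Reg.R b v => v ≤ K ∧ (v - b = 0 ∨ 4 ≤ v - b)
  | Reg.RT e b v => v ≤ K ∧ b + C ^ e ≤ v ∧ 20 ≤ e ∧ (v - b - C ^ e = 0 ∨ 4 ≤ v - b - C ^ e)
  | Reg.RTh e b v => v ≤ K ∧ b + C ^ e ≤ v ∧ 20 ≤ e ∧ (v - b - C ^ e = 0 ∨ 4 ≤ v - b - C ^ e)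
  | Reg.win _ _ => False
  | Reg.winC _ _ _ _ => False

/-- the defect of the regions below the window -/
theorem mk_dft_reg (hC : 2 ^ 20 ≤ C) (h2 : 2 ∣ C) {K : ℕ} {r : Reg} (h : RegOk C K r) :
    Dft (2 * dq C K) (r.top (mk C TK) - r.bot) (r.V (mk C TK)) := by
  have hC256 : 256 ≤ C := le_trans (by norm_num) hC
  have e2 : 2 * dq C K = dq C K + dq C K := two_mul _
  have e1 : dq C K ≤ 2 * dq C K := by omega
  cases r with
  | P p f b => exact (dft_P (mk_dft_X hC256 p (by have := h.2; omega))).mono e1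
  | PT p e f b =>
    obtain ⟨h1, h3, h4⟩ := h
    rw [e2]
    exact dft_PT h1 (mk_dft_X hC256 p (by omega)) (mk_dft_T hC h2 h4)
  | R b v =>
    obtain ⟨h1, h3⟩ := h
    exact (dft_R (mk_dft_Y h3 (by omega))).mono e1
  | RT e b v =>
    obtain ⟨h1, h3, h4, h5⟩ := h
    rw [e2]
    exact dft_RT h3 (mk_dft_Y h5 (by omega)) (mk_dft_T hC h2 h4)
  | RTh e b v =>
    obtain ⟨h1, h3, h4, h5⟩ := h
    rw [e2]
    exact dft_RTh h3 (mk_dft_Y h5 (by omega)) (mk_dft_Th hC h2 h4 (by omega))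
  | win a K' => exact absurd h id
  | winC e a h' K' => exact absurd h id

/-- the defect of the windows -/
theorem mk_dft_win {a K : ℕ} (hT : Dft (dq C K) (K - a) (TK K)) :
    Dft (3 * dq C K) ((Reg.win a K).top (mk C TK) - (Reg.win a K).bot)
      ((Reg.win a K).V (mk C TK)) :=
  (dft_win (C := mk C TK) hT).mono (by omega)

theorem mk_dft_winC (hC : 2 ^ 20 ≤ C) (h2 : 2 ∣ C) {e a h K : ℕ} (he : 20 ≤ e) (hW : C ^ e ≤ h)
    (haK : a + h ≤ K) (h0 : h - C ^ e = 0 ∨ 4 ≤ h - C ^ e)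
    (hT : Dft (dq C K) (K - a - h) (TK K)) :
    Dft (3 * dq C K) ((Reg.winC e a h K).top (mk C TK) - (Reg.winC e a h K).bot)
      ((Reg.winC e a h K).V (mk C TK)) :=
  (dft_winC (C := mk C TK) hW haK (mk_dft_Y (TK := TK) (K := K) h0 (show h - C ^ e ≤ K by omega))
    (mk_dft_Th (TK := TK) (K := K) hC h2 he (by omega)) hT).mono (by omega)

end Pool.Agent.Helper32.ETT
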