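import Mathlib
import Pool.Agent.Helper32.ETT.Codes
import Pool.Agent.Helper16.ETL.Body
import Pool.Agent.Helper29.ETK.Win

/-!
# E-T (MP_12a1af_nt), project T*: sizes of the regions of the layouts

Main theorem: `size_layL`, every region of every layout has a small defect.
-/

set_option autoImplicit false

open Finset

namespace Pool.Agent.Helper32.ETT

open Pool.Agent.ETS Pool.Agent.Helper83.ET Pool.Agent.ETP
open Pool.Agent.Helper29.ETK (Kid kid wb ep Wd av ab ag ak CC Hb wcomp lg nb epo)

theorem four_le_CC {c : ℕ} (hc : 20 ≤ c) : 2 ^ 20 ≤ CC c :=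
  Nat.pow_le_pow_right (by norm_num) hc

theorem two_dvd_CC {c : ℕ} (hc : 20 ≤ c) : 2 ∣ CC c := by
  unfold CC
  exact dvd_pow_self 2 (by omega)

theorem zero_or_ge {C e x : ℕ} (hC : 4 ≤ C) (he : 1 ≤ e) (h : C ^ e ∣ x) : x = 0 ∨ 4 ≤ x := by
  rcases Nat.eq_zero_or_pos x with h0 | h0
  · exact Or.inl h0
  · right
    have h1 := Nat.le_of_dvd h0 h
    have h2 : C ^ 1 ≤ C ^ e := Nat.pow_le_pow_right (by omega) he
    rw [pow_one] at h2
    omega

theorem pow_le_pos {c t s n : ℕ} (h1 : CC c ^ (n + 4) ≤ t) (h2 : t ≤ CC c ^ 4 * s) :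
    CC c ^ n ≤ s := by
  have h0 : 0 < CC c := by unfold CC; positivity
  have : CC c ^ 4 * CC c ^ n ≤ CC c ^ 4 * s := by
    rw [← pow_add]
    calc CC c ^ (4 + n) = CC c ^ (n + 4) := by ring_nf
      _ ≤ t := h1
      _ ≤ _ := h2
  exact Nat.le_of_mul_le_mul_left this (by positivity)

theorem le_ep {c s e1 : ℕ} (hc : 20 ≤ c) (h3 : CC c ^ (3 * e1) ≤ s) : e1 ≤ ep c s := by
  have hC := four_le_CC hc
  have hs : s ≠ 0 := by
    have : 0 < CC c ^ (3 * e1) := pow_pos (by omega) _
    omega
  unfold ep Helper29.ETK.lg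
  have h4 : 3 * e1 ≤ Nat.log (CC c) s := Nat.le_log_of_pow_le (by omega) h3
  omega

/-- the regions below the window are well placed -/
theorem regOk_body {c t : ℕ} (hc : 20 ≤ c) (H : KidOK c t) (HS : KidSize c t)
    (ht : CC c ^ 64 ≤ t) {r : Reg} (hr : r ∈ body c t) : RegOk (CC c) t r := by
  have hC20 := four_le_CC hc
  have hCp : 0 < CC c := by omega
  have ht' : CC c ^ (3 * 20 + 4) ≤ t := ht
  have hwt := H.wbt
  have hep : ∀ s, t ≤ CC c ^ 4 * s → 20 ≤ ep c s := fun s hs => le_ep hc (pow_le_pos ht' hs)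
  unfold body at hr
  rw [List.mem_flatMap] at hr
  obtain ⟨⟨k, s, e⟩, hq, hr⟩ := hr
  have hrun := isRun_of_mem' _ hq
  have hr' := hrun
  obtain ⟨-, h2, h3, h4, h5, h6'⟩ := hr'
  simp only at h2 h3 h4 h5 h6'
  have hk := h4 s le_rfl h2
  have hcut : KCut c t s := by
    rcases h5 with h5 | h5
    · exact Or.inl h5
    · exact Or.inr (Or.inr (by rw [hk]; exact h5))
  cases k with
  | P g =>
    have := run_P H le_rfl hrun
    subst this
    simp only [toRegs, List.mem_singleton] at hr
    subst hr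
    exact ⟨h2.le, by omega⟩
  | PT g b =>
    obtain ⟨h7, h8, h9, h10, h11, h12, h13⟩ := H.PT s g b (by omega) hk
    obtain ⟨d1, d2, d3, d4⟩ := HS.PT g b s (by omega) hk
    have he := hep b d4
    have hW : Wd c b = CC c ^ ep c b := rfl
    simp only [toRegs] at hr
    split_ifs at hr
    · rw [List.mem_cons, List.mem_singleton] at hr
      rcases hr with rfl | rfl
      · exact ⟨h7, by rw [← hW]; omega, he⟩
      · exact ⟨by omega, Or.inl (Nat.sub_self _)⟩
    · rw [List.mem_singleton] at hr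
      subst hr
      exact ⟨h7, by rw [← hW]; omega, he⟩
  | R v =>
    obtain ⟨h6, h7, h8⟩ := H.R s v (by omega) hk
    have he := run_R H le_rfl hrun h7
    simp only [toRegs, List.mem_singleton] at hr
    subst hr
    refine ⟨by omega, ?_⟩
    rcases Nat.eq_zero_or_pos s with h0 | h0
    · right
      have hcv : KCut c t v := by
        rcases h6' with h6' | h6'
        · exact Or.inr (Or.inl (by omega))
        · refine Or.inr (Or.inr ?_)
          intro h
          apply h6'
          rw [he, ← h]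
          exact h8 (v - 1) (by omega) (by omega)
      have h9 := HS.low v (by omega) h7 hcv
      have h10 := pow_le_pos (n := 60) ht h9
      have h11 : CC c ^ 1 ≤ CC c ^ 60 := Nat.pow_le_pow_right hCp (by norm_num)
      rw [pow_one] at h11
      omega
    · obtain ⟨d1, d2⟩ := HS.R v s (by omega) hk hcut
      have h9 := HS.low s h0 (by omega) hcut
      have h10 := pow_le_pos (n := 60) ht h9
      have h11 : CC c ^ (3 * 19) + 1 ≤ CC c ^ 60 := by
        have : CC c ^ (3 * 19) < CC c ^ 60 := Nat.pow_lt_pow_right (by omega) (by norm_num)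
        omega
      have h12 : 19 ≤ ep c (s - 1) := le_ep hc (by omega)
      exact zero_or_ge (C := CC c) (e := ep c (s - 1)) (by omega) (by omega)
        (Nat.dvd_sub d2 d1)
  | RT v =>
    obtain ⟨h6, h7, -⟩ := H.RT s v (by omega) hk
    have hs0 : 0 < s := by
      rcases Nat.eq_zero_or_pos s with h0 | h0
      · rw [h0] at hk
        exact absurd hk (HS.z v).2
      · exact h0
    obtain ⟨d1, d2⟩ := HS.RT v s (by omega) hk hcut
    have he : 20 ≤ ep c s := hep s (HS.low s hs0 (by omega) hcut)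
    have hW : Wd c s = CC c ^ ep c s := rfl
    rw [hW] at d1 d2
    have hd : CC c ^ ep c s ∣ v - s := Nat.dvd_sub d2 d1
    have hle := Nat.le_of_dvd (by omega) hd
    simp only [toRegs, List.mem_singleton] at hr
    subst hr
    exact ⟨by omega, by omega, he, zero_or_ge (by omega) (by omega) (Nat.dvd_sub hd dvd_rfl)⟩
  | RTh v =>
    obtain ⟨h6, h7, -⟩ := H.RTh s v (by omega) hk
    have hs0 : 0 < s := by
      rcases Nat.eq_zero_or_pos s with h0 | h0
      · rw [h0] at hk
        exact absurd hk (HS.z v).1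
      · exact h0
    obtain ⟨d1, d2⟩ := HS.RTh v s (by omega) hk hcut
    have he : 20 ≤ ep c s := hep s (HS.low s hs0 (by omega) hcut)
    have hW : Wd c s = CC c ^ ep c s := rfl
    rw [hW] at d1 d2
    have hd : CC c ^ ep c s ∣ v - s := Nat.dvd_sub d2 d1
    have hle := Nat.le_of_dvd (by omega) hd
    simp only [toRegs, List.mem_singleton] at hr
    subst hr
    exact ⟨by omega, by omega, he, zero_or_ge (by omega) (by omega) (Nat.dvd_sub hd dvd_rfl)⟩

/-- the newborn cell fits in two units of the previous size -/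
theorem nb_le_Hb_pred {c w : ℕ} (hc : 20 ≤ c) (hw : 2 ≤ w) (he : 1 ≤ ep c w) :
    nb c w ≤ Hb c (w - 1) := by
  have hC := four_le_CC hc
  have hle : ep c (w - 1) ≤ ep c w := by
    unfold ep
    exact Nat.div_le_div_right (Helper29.ETK.lg_mono (by omega))
  rcases Nat.eq_or_lt_of_le hle with h | h
  · have h1 := Helper29.ETK.nb_le_Hb c w
    have h2 : Hb c (w - 1) = Hb c w := by
      unfold Hb Helper29.ETK.j0
      rw [h]
    omega
  · have h1 : CC c ^ (3 * ep c w) ≤ w := Helper29.ETK.le_pow_lg_div c (by omega)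
    have h2 : w - 1 < CC c ^ (3 * ep c w) := by
      by_contra hcon
      push Not at hcon
      have := le_ep hc hcon
      omega
    have h3 : ep c w - 1 ≤ ep c (w - 1) := by
      have h4 : CC c ^ (3 * ep c w - 1) ≤ w - 1 := by
        have : CC c ^ (3 * ep c w - 1) < CC c ^ (3 * ep c w) :=
          Nat.pow_lt_pow_right (by omega) (by omega)
        omega
      have h5 : 3 * ep c w - 1 ≤ Nat.log (CC c) (w - 1) := Nat.le_log_of_pow_le (by omega) h4
      have h6 : ep c (w - 1) = Nat.log (CC c) (w - 1) / 3 := rfl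
      omega
    have h4 : Helper29.ETK.jn c w = Helper29.ETK.j0 c w - 1 := by
      unfold Helper29.ETK.jn
      rw [if_pos]
      have : 0 < CC c ^ Helper29.ETK.j0 c w := pow_pos (by omega) _
      omega
    unfold nb Hb
    rw [h4]
    refine Nat.pow_le_pow_right (by omega) ?_
    unfold Helper29.ETK.j0
    omega

theorem wb_add_nb_le {c t : ℕ} (hc : 20 ≤ c) (ht : 6 ≤ epo c t) : wb c t + nb c (wb c t) ≤ t := by
  have h1 := Helper29.ETK.wb_add_le (c := c) (by omega) ht
  have h2 := Helper29.ETK.lg_wb (c := c) (by omega) ht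
  have h3 : 1 ≤ ep c (wb c t) := by unfold ep; omega
  have h4 : 2 ≤ wb c t := by
    by_contra hcon
    have h5 : wb c t = 0 ∨ wb c t = 1 := by omega
    rcases h5 with h5 | h5 <;> rw [h5] at h2 <;> simp [Helper29.ETK.lg] at h2
  have h5 := nb_le_Hb_pred hc h4 h3
  omega

/-- **the defect of every region of every layout** -/
theorem size_layL {c t : ℕ} {TK : ℕ → Finset ℕ} (hc : 20 ≤ c) (H : KidOK c t)
    (HS : KidSize c t) (ht : CC c ^ 64 ≤ t)
    (hTK : 2 ^ ((t - (wb c t + if wcomp c t then nb c (wb c t) else 0)) / 2) ≤ (TK t).card)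
    {r : Reg} (hr : r ∈ layL c t) :
    Dft (3 * (6 * CC c ^ 13 + 30) * (Nat.log 2 t + 1) ^ 2)
      (r.top (mk (CC c) TK) - r.bot) (r.V (mk (CC c) TK)) := by
  have hC20 := four_le_CC hc
  have hCp : 0 < CC c := by omega
  have e0 : 3 * (6 * CC c ^ 13 + 30) * (Nat.log 2 t + 1) ^ 2 = 3 * dq (CC c) t := by
    unfold dq; ring
  have hdq : 1 ≤ dq (CC c) t := by
    unfold dq
    exact Nat.mul_pos (by omega) (by positivity)
  rw [e0]
  unfold layL at hr
  rw [List.mem_append, List.mem_singleton] at hr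
  rcases hr with hr | rfl
  · exact (mk_dft_reg hC20 (two_dvd_CC hc) (regOk_body hc H HS ht hr)).mono (by omega)
  · have ht6 : 6 ≤ epo c t := by
      have h2 : 64 ≤ Nat.log (CC c) t := Nat.le_log_of_pow_le (by omega) ht
      have h3 : epo c t = (Nat.log (CC c) t - 1) / 3 := rfl
      omega
    unfold winReg
    split_ifs with hw
    · rw [if_pos hw] at hTK
      have h1 := wb_add_nb_le hc ht6
      have h2 : 20 ≤ ep c (wb c t) :=
        le_ep hc (pow_le_pos (n := 60) ht (HS.low _ H.wb0 le_rfl (Or.inr (Or.inl rfl))))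
      have h3 : CC c ^ (ep c (wb c t) + 1) ≤ nb c (wb c t) := by
        unfold nb
        refine Nat.pow_le_pow_right hCp ?_
        have := Helper29.ETK.ep_lt_jn c (wb c t)
        omega
      have h4 : 2 * CC c ^ ep c (wb c t) ≤ nb c (wb c t) := by
        refine le_trans ?_ h3
        rw [pow_succ, mul_comm]
        exact Nat.mul_le_mul_left _ (by omega)
      have h5 : 1 * 2 ^ 20 ≤ CC c ^ ep c (wb c t) := by
        calc 1 * 2 ^ 20 ≤ CC c ^ 1 := by rw [pow_one, one_mul]; exact hC20
          _ ≤ _ := Nat.pow_le_pow_right hCp (by omega)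
      refine mk_dft_winC hC20 (two_dvd_CC hc) h2 (by omega) h1 (Or.inr (by omega)) ?_
      refine (Dft.of_half (q := 0) ?_).mono (show 0 + 1 ≤ dq (CC c) t by omega)
      rw [pow_zero, one_mul, Nat.sub_sub]
      exact hTK
    · rw [if_neg hw, add_zero] at hTK
      refine mk_dft_win ?_
      refine (Dft.of_half (q := 0) ?_).mono (show 0 + 1 ≤ dq (CC c) t by omega)
      rw [pow_zero, one_mul]
      exact hTK

end Pool.Agent.Helper32.ETT
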