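import Mathlib
import Pool.Agent.Helper32.ETT.Size
import Pool.Agent.Helper3.ETF.Final2

/-!
# E-T (MP_12a1af_nt), project T*: `SizeGood`
-/

set_option autoImplicit false

open Finset

namespace Pool.Agent.Helper32.ETT

open Pool.Agent.ETS Pool.Agent.Helper83.ET Pool.Agent.ETP
open Pool.Agent.Helper29.ETK (wb CC wcomp nb)

/-- **`SizeGood`** from the sizes of the random sets of the windows -/
theorem sizeGood {a c K1 : ℕ} {TK : ℕ → Finset ℕ} (hc : 20 ≤ c) (hK1 : CC c ^ 64 ≤ K1)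
    (HS : SchedGood a c K1)
    (hTK : ∀ K, K1 ≤ K →
      2 ^ ((K - (wb c K + if wcomp c K then nb c (wb c K) else 0)) / 2) ≤ (TK K).card) :
    SizeGood (3 * (6 * CC c ^ 13 + 30)) c K1 (mk (CC c) TK) :=
  fun K hK _ hr => size_layL hc (HS.ok K hK) (HS.size K hK) (hK1.trans hK) (hTK K hK) hr

theorem SizeGood.mono_left {b b' c K1 : ℕ} {C : Codes} (h : SizeGood b c K1 C) (hb : b ≤ b') :
    SizeGood b' c K1 C :=
  fun K hK r hr => (h K hK r hr).mono (Nat.mul_le_mul_right _ hb)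

end Pool.Agent.Helper32.ETT
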